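import Pool.Agent.Helper31.EC.PM

/-! CORNERm v3, (I3) and (0.1), in any entropy lattice: a vertical box knows its box only, is visible, isotropic count;
exchange of the deficient coordinate (SWAP). -/

set_option autoImplicit false

namespace Pool.Agent.Helper34.RG

open Pool.Agent.Helper31.EC

variable {L : Type*} [PM L]

/-- one vertical box `β` over the point `q`: `M` = digits of the other vertical coordinates, `z` = digits of the deficient
one; `k` = level of `z` which the box knows, `D` = deepest level, `n` = number of the other coordinates, `a` = number of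
their digits which the box knows, `1 - ρ` = rate of `z` given all digits of `M`. -/
structure Box (L : Type*) [PM L] where
  q : L
  β : L
  M : ℝ → L
  z : ℝ → L
  k : ℝ
  D : ℝ
  n : ℝ
  a : ℝ
  ρ : ℝ
  hk : k ≤ D
  hM : Monotone M
  hz : Monotone z
  /-- the box is a function of the point -/
  hβ : β ≤ M D ⊔ z D ⊔ q
  /-- `M` is full -/
  m0 : h (M D) (M k ⊔ q) = n * (D - k)
  m0D : h (M D) q = n * D
  /-- `M` is full given the box -/
  m1 : h (M D) (M k ⊔ β ⊔ q) = n * (D - k)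
  m1D : h (M D) (β ⊔ q) = n * D - a
  /-- rate of `z` given all digits of `M` -/
  z0 : h (z k) (M D ⊔ q) = (1 - ρ) * k
  z0D : h (z D) (M D ⊔ q) = (1 - ρ) * D
  z1 : h (z D) (z k ⊔ (M D ⊔ β ⊔ q)) = (1 - ρ) * (D - k)
  /-- the box knows `z` to level `k` over `M` -/
  zb : z k ≤ M k ⊔ β ⊔ q

namespace Box

variable (B : Box L)

theorem zbD : B.z B.k ≤ B.M B.D ⊔ B.β ⊔ B.q :=
  B.zb.trans (sup_le_sup_right (sup_le_sup_right (B.hM B.hk) _) _)

theorem I_M : I B.β (B.M B.D) B.q = B.a := by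
  rw [I_eq', B.m0D, B.m1D]
  ring

theorem h_z : h (B.z B.D) (B.M B.D ⊔ B.β ⊔ B.q) = (1 - B.ρ) * (B.D - B.k) := by
  have h1 := h_chain (B.z B.k) (B.z B.D) (B.M B.D ⊔ B.β ⊔ B.q)
  rw [h_zero B.zbD, B.z1, sup_eq_right.mpr (B.hz B.hk)] at h1
  linarith

theorem I_z : I B.β (B.z B.D) (B.M B.D ⊔ B.q) = (1 - B.ρ) * B.k := by
  rw [I_eq', B.z0D]
  have h1 : B.β ⊔ (B.M B.D ⊔ B.q) = B.M B.D ⊔ B.β ⊔ B.q := by
    rw [sup_left_comm, sup_assoc]
  rw [h1, B.h_z]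
  ring

theorem I_zk : I B.β (B.z B.k) (B.M B.D ⊔ B.q) = (1 - B.ρ) * B.k := by
  rw [I_eq', B.z0]
  have h1 : B.β ⊔ (B.M B.D ⊔ B.q) = B.M B.D ⊔ B.β ⊔ B.q := by
    rw [sup_left_comm, sup_assoc]
  rw [h1, h_zero B.zbD]
  ring

/-- (0.1): information of the box -/
theorem h_β : h B.β B.q = B.a + (1 - B.ρ) * B.k := by
  have h1 := I_eq B.β (B.M B.D) B.q
  have h2 := I_eq B.β (B.z B.D) (B.M B.D ⊔ B.q)
  have h3 : h B.β (B.z B.D ⊔ (B.M B.D ⊔ B.q)) = 0 := by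
    apply h_zero
    refine B.hβ.trans (le_of_eq ?_)
    rw [sup_left_comm, sup_assoc]
  rw [B.I_M] at h1
  rw [B.I_z, h3] at h2
  linarith

/-- (0.1): the box is visible at the resolution `k` -/
theorem visible : B.β ≤ B.M B.k ⊔ B.z B.k ⊔ B.q := by
  have h1 := I_eq B.β (B.M B.D) B.q
  have h2 := I_eq B.β (B.z B.k) (B.M B.D ⊔ B.q)
  rw [B.I_M, B.h_β] at h1
  rw [B.I_zk] at h2
  have h3 : h B.β (B.z B.k ⊔ (B.M B.D ⊔ B.q)) = 0 := by linarith
  have h4 : I B.β (B.M B.D) (B.M B.k ⊔ B.z B.k ⊔ B.q) = 0 := by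
    apply le_antisymm _ (I_nonneg _ _ _)
    rw [I_eq']
    have h5 : h (B.M B.D) (B.M B.k ⊔ B.z B.k ⊔ B.q) ≤ B.n * (B.D - B.k) := by
      rw [← B.m0]
      exact h_anti (sup_le (le_sup_left.trans le_sup_left) le_sup_right)
    have h6 : B.β ⊔ (B.M B.k ⊔ B.z B.k ⊔ B.q) = B.M B.k ⊔ B.β ⊔ B.q := by
      apply le_antisymm
      · refine sup_le (le_sup_right.trans le_sup_left) (sup_le (sup_le (le_sup_left.trans le_sup_left) B.zb) le_sup_right)
      · refine sup_le (sup_le ?_ le_sup_left) (le_sup_right.trans le_sup_right)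
        exact (le_sup_left.trans le_sup_left).trans le_sup_right
    rw [h6, B.m1]
    linarith
  rw [I_eq] at h4
  have h7 : B.M B.D ⊔ (B.M B.k ⊔ B.z B.k ⊔ B.q) = B.z B.k ⊔ (B.M B.D ⊔ B.q) := by
    apply le_antisymm
    · refine sup_le (le_sup_left.trans le_sup_right) (sup_le (sup_le ?_ le_sup_left) (le_sup_right.trans le_sup_right))
      exact ((B.hM B.hk).trans le_sup_left).trans le_sup_right
    · refine sup_le ((le_sup_right.trans le_sup_left).trans le_sup_right) (sup_le le_sup_left ?_)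
      exact le_sup_right.trans le_sup_right
  rw [h7, h3, sub_zero] at h4
  exact h_eq_zero_iff.mp h4

/-- (0.1): isotropic count at level `k` -/
theorem count : h (B.M B.k ⊔ B.z B.k) B.q = (B.n + 1 - B.ρ) * B.k := by
  have h1 := h_chain B.β (B.M B.k ⊔ B.z B.k) B.q
  have h2 : B.β ⊔ (B.M B.k ⊔ B.z B.k) ⊔ B.q = B.M B.k ⊔ B.z B.k ⊔ B.q := by
    rw [sup_assoc]
    exact sup_eq_right.mpr B.visible
  have h3 : h (B.β ⊔ (B.M B.k ⊔ B.z B.k)) B.q = h (B.M B.k ⊔ B.z B.k) B.q := by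
    unfold h
    rw [h2]
  have h4 := h_chain (B.M B.k) (B.z B.k) (B.β ⊔ B.q)
  have h5 : B.M B.k ⊔ (B.β ⊔ B.q) = B.M B.k ⊔ B.β ⊔ B.q := by rw [sup_assoc]
  rw [h5, h_zero B.zb, add_zero] at h4
  have h6 := h_chain (B.M B.k) (B.M B.D) (B.β ⊔ B.q)
  rw [h5, B.m1, sup_eq_right.mpr (B.hM B.hk), B.m1D] at h6
  rw [h3, B.h_β, h4] at h1
  linarith

end Box

/-- two boxes over one point, levels `k ≤ k'`: count above the smaller box -/
theorem count_two (B C : Box L) (hq : C.q = B.q) (hM : C.M = B.M) (hz : C.z = B.z) (hn : C.n = B.n) (hρ : C.ρ = B.ρ)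
    (hk : B.k ≤ C.k) :
    h (B.M C.k ⊔ B.z C.k) (B.β ⊔ B.q) = B.n * C.k - B.a + (1 - B.ρ) * (C.k - B.k) := by
  have h1 := h_chain B.β (B.M C.k ⊔ B.z C.k) B.q
  have h2 : B.β ⊔ (B.M C.k ⊔ B.z C.k) ⊔ B.q = B.M C.k ⊔ B.z C.k ⊔ B.q := by
    rw [sup_assoc]
    apply sup_eq_right.mpr
    exact B.visible.trans (sup_le_sup_right (sup_le_sup (B.hM hk) (B.hz hk)) _)
  have h3 : h (B.β ⊔ (B.M C.k ⊔ B.z C.k)) B.q = h (B.M C.k ⊔ B.z C.k) B.q := by
    unfold h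
    rw [h2]
  have h4 := C.count
  rw [hq, hM, hz, hn, hρ] at h4
  rw [h3, h4, B.h_β] at h1
  linarith

/-- SWAP. `P` = all digits of the coordinates other than `z` and `r`; weights `wz` of `z`, `wr` of `r`; the box `β` knows `a`
digits of `P`, `wr * s` of `r`, `wz * s` of `z`. If `z` has the rate `1 - ρ` given all digits of `(P, r)`, and `r` has some
rate `l` given all digits of `(P, z)`, then `wr * (1 - l) = wz * ρ`. -/
theorem swap (q β P R Z : L) (D n a wz wr s ρ l : ℝ) (hs : s ≠ 0)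
    (r0 : h (P ⊔ R) q = n * D) (r1 : h (P ⊔ R) (β ⊔ q) = n * D - a - wr * s)
    (r2 : h Z (P ⊔ R ⊔ q) = (1 - ρ) * D) (r3 : h Z (P ⊔ R ⊔ (β ⊔ q)) = (1 - ρ) * (D - wz * s))
    (t0 : h (P ⊔ Z) q = n * D) (t1 : h (P ⊔ Z) (β ⊔ q) = n * D - a - wz * s)
    (t2 : h R (P ⊔ Z ⊔ q) = l * D) (t3 : h R (P ⊔ Z ⊔ (β ⊔ q)) = l * (D - wr * s)) :
    wr * (1 - l) = wz * ρ := by
  have e1 := h_chain (P ⊔ R) Z q
  have e2 := h_chain (P ⊔ R) Z (β ⊔ q)
  have e3 := h_chain (P ⊔ Z) R q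
  have e4 := h_chain (P ⊔ Z) R (β ⊔ q)
  have e5 : P ⊔ R ⊔ Z = P ⊔ Z ⊔ R := sup_right_comm _ _ _
  rw [e5, r0, r2] at e1
  rw [e5, r1, r3] at e2
  rw [t0, t2] at e3
  rw [t1, t3] at e4
  have h6 : s * (wr * (1 - l)) = s * (wz * ρ) := by linarith
  exact mul_left_cancel₀ hs h6

end Pool.Agent.Helper34.RG
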