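import Pool.Agent.Helper67.RG.EStmts

/-!
# Points of order `2 ^ k` on `y² = x³ - x`
-/

namespace Pool.Agent.Helper34.RG

open Pool.Agent.Helper67.RG WeierstrassCurve

theorem W0_eq_iff (x y : ℂ) : W0.Equation x y ↔ y ^ 2 = x ^ 3 - x := by
  rw [WeierstrassCurve.Affine.equation_iff]
  simp only [W0]
  constructor
  · intro h
    linear_combination h
  · intro h
    linear_combination h

theorem W0_nonsing (x y : ℂ) (h : y ^ 2 = x ^ 3 - x) : W0.Nonsingular x y := by
  rw [WeierstrassCurve.Affine.nonsingular_iff, W0_eq_iff]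
  refine ⟨h, ?_⟩
  simp only [W0]
  by_contra hcon
  push Not at hcon
  obtain ⟨h1, h2⟩ := hcon
  have hy : y = 0 := by
    have : (2 : ℂ) * y = 0 := by linear_combination h2
    simpa using this
  have hx1 : 3 * x ^ 2 = 1 := by linear_combination -h1
  rw [hy] at h
  have h3 : x * (x ^ 2 - 1) = 0 := by linear_combination -h
  rcases mul_eq_zero.1 h3 with h4 | h4
  · rw [h4] at hx1
    norm_num at hx1
  · have : x ^ 2 = 1 := by linear_combination h4
    rw [this] at hx1
    norm_num at hx1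

theorem W0_negY (x y : ℂ) : W0.negY x y = -y := by
  simp [WeierstrassCurve.Affine.negY, W0]

theorem exists_half (a b : ℂ) (h : W0.Nonsingular a b) :
    ∃ Q : W0.Point, Q + Q = Affine.Point.some a b h := by
  have hE : b ^ 2 = a ^ 3 - a := (W0_eq_iff a b).1 h.1
  obtain ⟨s1, hs1⟩ : ∃ s : ℂ, s ^ 2 = a := IsAlgClosed.exists_pow_nat_eq a (by norm_num)
  obtain ⟨r2, hr2⟩ : ∃ s : ℂ, s ^ 2 = a - 1 := IsAlgClosed.exists_pow_nat_eq _ (by norm_num)
  obtain ⟨r3, hr3⟩ : ∃ s : ℂ, s ^ 2 = a + 1 := IsAlgClosed.exists_pow_nat_eq _ (by norm_num)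
  obtain ⟨r1, hr1, hb⟩ : ∃ r1 : ℂ, r1 ^ 2 = a ∧ r1 * r2 * r3 = b := by
    have h1 : (s1 * r2 * r3) ^ 2 = b ^ 2 := by
      rw [hE, mul_pow, mul_pow, hs1, hr2, hr3]; ring
    rcases sq_eq_sq_iff_eq_or_eq_neg.1 h1 with h2 | h2
    · exact ⟨s1, hs1, h2⟩
    · refine ⟨-s1, by rw [neg_sq, hs1], ?_⟩
      linear_combination -h2
  set x0 : ℂ := a + (r1 * r2 + r1 * r3 + r2 * r3) with hx0
  set P : ℂ := (r1 + r2) * (r1 + r3) * (r2 + r3) with hP
  have hx1 : x0 = (r1 + r2) * (r1 + r3) := by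
    rw [hx0]; linear_combination -hr1
  have hx2 : x0 - 1 = (r1 + r2) * (r2 + r3) := by
    rw [hx0]; linear_combination -hr2
  have hx3 : x0 + 1 = (r1 + r3) * (r2 + r3) := by
    rw [hx0]; linear_combination -hr3
  have hPx : P ^ 2 = x0 ^ 3 - x0 := by
    have : x0 ^ 3 - x0 = x0 * (x0 - 1) * (x0 + 1) := by ring
    rw [this, hx2, hx3]
    conv_rhs => rw [hx1]
    rw [hP]; ring
  have hP0 : P ≠ 0 := by
    have h12 : (r1 + r2) * (r1 - r2) = 1 := by linear_combination hr1 - hr2
    have h13 : (r1 + r3) * (r3 - r1) = 1 := by linear_combination hr3 - hr1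
    have h23 : (r2 + r3) * (r3 - r2) = 2 := by linear_combination hr3 - hr2
    rw [hP]
    refine mul_ne_zero (mul_ne_zero ?_ ?_) ?_
    · intro h0
      rw [h0] at h12; norm_num at h12
    · intro h0
      rw [h0] at h13; norm_num at h13
    · intro h0
      rw [h0] at h23; norm_num at h23
  have hns : W0.Nonsingular x0 P := W0_nonsing x0 P hPx
  have hy : P ≠ W0.negY x0 P := by
    rw [W0_negY]
    intro h0
    apply hP0
    have : (2 : ℂ) * P = 0 := by linear_combination h0
    simpa using this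
  refine ⟨Affine.Point.some x0 P hns, ?_⟩
  rw [Affine.Point.add_self_of_Y_ne hy]
  have hsl : W0.slope x0 x0 P P = r1 + r2 + r3 := by
    rw [Affine.slope_of_Y_ne rfl hy, W0_negY]
    have h2P : P - -P ≠ 0 := by
      intro h0
      apply hP0
      have : (2 : ℂ) * P = 0 := by linear_combination h0
      simpa using this
    rw [div_eq_iff h2P]
    simp only [W0]
    have e1 : 3 * x0 ^ 2 - 1 = x0 * (x0 - 1) + x0 * (x0 + 1) + (x0 - 1) * (x0 + 1) := by ring
    have e2 : (3 * x0 ^ 2 + 2 * 0 * x0 + -1 - 0 * P : ℂ) = 3 * x0 ^ 2 - 1 := by ring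
    rw [e2, e1, hx2, hx3]
    conv_lhs => rw [hx1]
    rw [hP]; ring
  have hX : W0.addX x0 x0 (W0.slope x0 x0 P P) = a := by
    rw [hsl, Affine.addX]
    simp only [W0]
    rw [hx0]
    linear_combination hr1 + hr2 + hr3
  have hY : W0.addY x0 x0 P (W0.slope x0 x0 P P) = b := by
    rw [Affine.addY, Affine.negAddY, hX, W0_negY, hsl, ← hb, hP, hx0]
    ring
  simp only [Affine.Point.some.injEq]
  exact ⟨hX, hY⟩

theorem exists_double (R : W0.Point) : ∃ Q : W0.Point, (2 : ℕ) • Q = R := by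
  cases R with
  | zero => exact ⟨0, nsmul_zero 2⟩
  | some a b h =>
    obtain ⟨Q, hQ⟩ := exists_half a b h
    exact ⟨Q, by rw [two_nsmul, hQ]⟩

theorem st_HALF : ST_HALF := by
  have key : ∀ k : ℕ, ∃ T : W0.Point, addOrderOf T = 2 ^ (k + 1) := by
    intro k
    induction k with
    | zero =>
      have h0 : W0.Nonsingular 0 0 := W0_nonsing 0 0 (by norm_num)
      refine ⟨Affine.Point.some 0 0 h0, ?_⟩
      rw [zero_add, pow_one]
      apply addOrderOf_eq_prime
      · rw [two_nsmul, Affine.Point.add_self_of_Y_eq (by rw [W0_negY]; norm_num)]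
      · exact Affine.Point.some_ne_zero h0
    | succ n ih =>
      obtain ⟨R, hR⟩ := ih
      obtain ⟨Q, hQ⟩ := exists_double R
      refine ⟨Q, ?_⟩
      have : Fact (Nat.Prime 2) := ⟨Nat.prime_two⟩
      apply addOrderOf_eq_prime_pow
      · have e : (2 ^ (n + 1) : ℕ) • Q = 2 ^ n • R := by
          rw [← hQ, smul_smul, pow_succ]
        rw [e]
        intro h0
        have h1 := addOrderOf_dvd_of_nsmul_eq_zero h0
        rw [hR] at h1
        have h2 := Nat.le_of_dvd (by positivity) h1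
        have h3 : 2 ^ n < 2 ^ (n + 1) := Nat.pow_lt_pow_right (by norm_num) (by omega)
        omega
      · have e : (2 ^ (n + 1 + 1) : ℕ) • Q = 2 ^ (n + 1) • R := by
          rw [← hQ, smul_smul, ← pow_succ]
        rw [e, ← hR]
        exact addOrderOf_nsmul_eq_zero R
  intro k
  cases k with
  | zero => exact ⟨0, by simp⟩
  | succ n => exact key n

end Pool.Agent.Helper34.RG
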